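import Pool.Agent.H81.JV.Main

/-!
# The variety generated by the Jordan algebra of a bilinear form need not be special

(question Q1 of the problem file, negated form)

The definitions of `J(V, f)`, of the inclusion in the variety and of special algebras are in
`Pool/Agent/H81/JV/Defs.lean`.

Outline of the proof. Over an infinite field the identities of `J(V, f)` hold in all its extensions
of scalars, so in `J(C ^ 2, x1 y1 + x2 y2)`, that is, in the symmetric `2 x 2` matrices over `C`,
for every commutative algebra `C` over the algebraic closure. Take
`C = K[s, e1, e2, z] / (s^3, e1^2, e2^2, z^2)` and the subalgebra generated by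
`x = s (1 + u)`, `y = e1 (1 + u) + e2 v`, `z (1 + u + v)` for an orthonormal basis `u, v` of the
plane. In characteristic 3 the ideal generated by `x y` does not contain the element
`w = {U_x y, y, z} + U_y (x ^ 2) z`, although `w` vanishes in every special algebra in which
`x y = 0`. The algebra `B` is a quotient of dimension 16 of this subalgebra in which `x y = 0` and
`w` is not zero.
-/

namespace Pool.Agent.Results.MP_7d9e78_al.NonspecialVariety

open Pool.Agent.H81.JV

universe u v w

/-- For every infinite field `F` of characteristic `3`, every vector space `V` over `F` and every
symmetric bilinear form `f` on `V` whose restriction to some plane of `V` is nondegenerate (that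
is, of rank at least two), there is a finite-dimensional Jordan algebra `B` over `F` that satisfies
all identities of `J(V, f)` and is not special. -/
theorem result (F : Type u) [Field F] [Infinite F] [CharP F 3]
    (V : Type v) [AddCommGroup V] [Module F V] (f : LinearMap.BilinForm F V) (hf : f.IsSymm)
    (hr : ∃ v w : V, f v v * f w w ≠ f v w * f v w) :
    ∃ (B : Type u) (_ : NonUnitalNonAssocCommRing B) (_ : Module F B)
      (_ : IsScalarTower F B B) (_ : SMulCommClass F B B),
      Module.Finite F B ∧ IsCommJordan B ∧ SatisfiesIdentitiesOf F (JordanForm F V f) B ∧
        ¬ IsSpecial.{u, u, w} F B :=
  main F V f hf hr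

end Pool.Agent.Results.MP_7d9e78_al.NonspecialVariety
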